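import Pool.Agent.Y778.NK.Inj2
import Pool.Agent.Y43.NK.Artin

/-!
# `K₀` of group rings over semilocal rings: statements of the steps
-/

open Matrix

namespace Pool.Agent.Y778.SL

open MonoidAlgebra Pool.Agent.Y69 Pool.Agent.Y778.NK

/-- Equality in `K₀` is stable equivalence. -/
def S_SE : Prop :=
  ∀ (B : Type) [Ring B] (m n : ℕ) (e : Matrix (Fin m) (Fin m) B) (he : e * e = e)
    (f : Matrix (Fin n) (Fin n) B) (hf : f * f = f), cl0 e he = cl0 f hf →
    ∃ (N : ℕ) (u : Matrix (Fin m ⊕ Fin N) (Fin n ⊕ Fin N) B)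
      (v : Matrix (Fin n ⊕ Fin N) (Fin m ⊕ Fin N) B),
      u * v = Matrix.fromBlocks e 0 0 1 ∧ v * u = Matrix.fromBlocks f 0 0 1

/-- `K₀(R[H])` of a finite group `H` over a semilocal ring `R` is detected at the residue fields. -/
def S_Inj : Prop :=
  ∀ (R : Type) [CommRing R] [Finite (MaximalSpectrum R)] (H : Type) [Group H] [Finite H]
    (x : K0 (MonoidAlgebra R H)),
    (∀ m : MaximalSpectrum R,
      K0.map (mapRingHom H (Ideal.Quotient.mk m.asIdeal)) x = 0) → x = 0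

/-- `K₀` of group rings is invariant under nilpotent extensions of the coefficients. -/
def S_Nil : Prop :=
  ∀ (R S : Type) [CommRing R] [CommRing S] (θ : R →+* S), Function.Surjective θ →
    (∃ N : ℕ, RingHom.ker θ ^ N = ⊥) → ∀ (G : Type) [Group G],
      Function.Bijective (K0.map (mapRingHom G θ))

/-- `θ : W n → k` is a sequence of nilpotent extensions of a field such that every nonzero integer
times a unit is nonzero in `W n` for some `n` (for example the rings of truncated Witt vectors). -/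
def IsThick (k : Type) [Field k] (W : ℕ → Type) [∀ n, CommRing (W n)]
    (θ : ∀ n, W n →+* k) : Prop :=
  (∀ n, Function.Surjective (θ n) ∧ ∃ N : ℕ, RingHom.ker (θ n) ^ N = ⊥) ∧
    ∀ m : ℤ, m ≠ 0 → ∃ n, ∀ a : W n, θ n a ≠ 0 → (m : W n) * a ≠ 0

/-- Existence of such sequences. -/
def S_Thick : Prop :=
  ∀ (k : Type) [Field k], ∃ (W : ℕ → Type) (_ : ∀ n, CommRing (W n)) (θ : ∀ n, W n →+* k),
    IsThick k W θ

/-- Lifted traces detect `K₀` of the group algebra of a finite abelian group over a field. -/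
def S_TorsF : Prop :=
  ∀ (k : Type) [Field k] (W : ℕ → Type) [∀ n, CommRing (W n)] (θ : ∀ n, W n →+* k),
    IsThick k W θ → ∀ (C : Type) [CommGroup C] [Finite C] (u : K0 (MonoidAlgebra k C)),
      (∀ (n : ℕ) (v : K0 (MonoidAlgebra (W n) C)), K0.map (mapRingHom C (θ n)) v = u →
        ∀ h : C → ℤ, T (W n) h v = 0) → u = 0

/-- Block triangular idempotent matrices. -/
def S_Tri : Prop :=
  ∀ (S : Type) [Ring S] (κ : Type) [Fintype κ] [DecidableEq κ] (a : κ → ℕ) (E : Matrix κ κ S)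
    (hE : E * E = E), (∀ x y, a y < a x → E x y = 0) →
    ∀ D : Matrix κ κ S, (∀ x y, D x y = if a x = a y then E x y else 0) →
      ∃ hD : D * D = D, cl0 E hE = cl0 D hD

/-- Smith normal form. -/
def S_SNF : Prop :=
  ∀ (X Y : Type) [Fintype X] [DecidableEq X] [Fintype Y] [DecidableEq Y] (P : Matrix X Y ℤ)
    (Q : Matrix Y X ℤ) (δ : ℕ), 0 < δ → P * Q = (δ : Matrix X X ℤ) → Q * P = (δ : Matrix Y Y ℤ) →
    ∃ (Z : Type) (_ : Fintype Z) (_ : DecidableEq Z) (U : Matrix X Z ℤ) (U' : Matrix Z X ℤ)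
      (V : Matrix Z Y ℤ) (V' : Matrix Y Z ℤ) (d : Z → ℤ), U * U' = 1 ∧ U' * U = 1 ∧ V * V' = 1 ∧
        V' * V = 1 ∧ (∀ z, d z ≠ 0) ∧ P = U * Matrix.diagonal d * V

/-- Permutation modules with isomorphic rationalisations act in the same way on `K₀(k[G])`. -/
def S_YY : Prop :=
  ∀ (k : Type) [Field k] (G : Type) [Group G] [Finite G] (X Y : Type) [MulAction G X] [Fintype X]
    [DecidableEq X] [MulAction G Y] [Fintype Y] [DecidableEq Y] (P : Matrix X Y ℤ)
    (Q : Matrix Y X ℤ) (δ : ℕ), 0 < δ → P * Q = (δ : Matrix X X ℤ) →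
    Q * P = (δ : Matrix Y Y ℤ) → (∀ (g : G) x y, P (g • x) (g • y) = P x y) →
    ∀ (ι : Type) [Fintype ι] [DecidableEq ι] (m : Matrix ι ι (MonoidAlgebra k G))
      (hm : m * m = m), Pool.Agent.Y43.NK.yy X hm = Pool.Agent.Y43.NK.yy Y hm

end Pool.Agent.Y778.SL
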