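import Pool.Agent.Y778.SL.Thy

/-!
# Rational injectivity of `colim K₀(R[H]) → K₀(R[G])`, `R` semilocal
-/

open Matrix

namespace Pool.Agent.Y778.SL

open MonoidAlgebra Pool.Agent.Y69 Pool.Agent.Y69.StepC Pool.Agent.Y778.NK

noncomputable section

variable {R : Type} [CommRing R] {G : Type} [Group G]

/-- every element has a multiple coming from cyclic groups -/
theorem coverS (hI : S_Inj) (hY : S_YY) [Finite (MaximalSpectrum R)]
    (z : ColK R G) : ∃ k : ℕ, 0 < k ∧ k • z ∈ SE R G := by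
  induction z using ColK.induction with
  | hadd x y hx hy =>
    obtain ⟨k, hk, h1⟩ := hx
    obtain ⟨l, hl, h2⟩ := hy
    refine ⟨k * l, Nat.mul_pos hk hl, ?_⟩
    rw [smul_add]
    refine AddSubgroup.add_mem _ ?_ ?_
    · rw [mul_comm k l, mul_smul]
      exact AddSubgroup.nsmul_mem _ h1 l
    · rw [mul_smul]
      exact AddSubgroup.nsmul_mem _ h2 k
  | hneg x hx =>
    obtain ⟨k, hk, h1⟩ := hx
    exact ⟨k, hk, by rw [smul_neg]; exact AddSubgroup.neg_mem _ h1⟩
  | hι H x =>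
    have := H.2
    obtain ⟨k, hk, h1⟩ := artinSL hI hY R H.1 x
    refine ⟨k, hk, ?_⟩
    rw [← map_nsmul]
    have h2 : k • x ∈ (SE R G).comap (ci H) := by
      refine (AddSubgroup.closure_le _).2 ?_ h1
      rintro _ ⟨C, hC, z, rfl⟩
      show ci H (K0.map _ z) ∈ SE R G
      rw [sy_incl]
      letI : CommGroup C := IsCyclic.commGroup
      exact @sy_mem G _ R _ C _ _ _ (Subtype.val_injective.comp Subtype.val_injective) z
    exact h2

/-- **Lifted traces detect the colimit up to torsion.** -/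
theorem injS (hN : S_Nil) (hI : S_Inj) (hY : S_YY) (hT : S_TorsF) [Finite (MaximalSpectrum R)]
    (D : ∀ M : MaximalSpectrum R, Thick (RF R M)) (y : ColK R G)
    (h0 : ∀ h : G → ℤ, IsCls h → TS hN D h (asm R G y) = 0) : ∃ k : ℕ, 0 < k ∧ k • y = 0 := by
  obtain ⟨k, hk, h1⟩ := coverS hI hY y
  obtain ⟨l, hl, h2⟩ := Theory.main (S := theoryS hN D hI hT) (G := G) (𝒜 := ColK R G)
    (fun {C} _ _ φ => sy R φ)
    (fun {C D} _ _ _ _ φ ψ f g h u => sy_map φ ψ f g h u)
    (fun h => (TS hN D h).comp (asm R G))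
    (fun h hh C _ _ _ φ u => by
      show TS hN D h (asm R G (sy R φ u)) = _
      rw [asm_sy, TS_map hN D φ hh]
      exact TS_eq_sum hN D _ u) (y := k • y) (by
      refine (AddSubgroup.closure_mono ?_) h1
      rintro z ⟨C, i1, i2, φ, hφ, u, rfl⟩
      exact ⟨C, i1, i2, dvd_zero _, φ, hφ, u, rfl⟩)
    (fun h hh => by
      show TS hN D h (asm R G (k • y)) = 0
      rw [map_nsmul, map_nsmul, h0 h hh, smul_zero])
  exact ⟨l * k, Nat.mul_pos hl hk, by rw [mul_smul]; exact h2⟩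

/-- the values are torsion-free -/
theorem TS_torsion (hN : S_Nil) (D : ∀ M : MaximalSpectrum R, Thick (RF R M)) {n : ℕ}
    (x : K0 (MonoidAlgebra R G)) (hx : n • x = 0) (h : G → ℤ) : TS hN D h (n • x) = 0 := by
  rw [hx, map_zero]

/-- **Theorem.** The kernel of `colim K₀(R[H]) → K₀(R[G])` is a torsion group if `R` is
semilocal. -/
theorem main (hSE : S_Nil) (hI : S_Inj) (hY : S_YY) (hT : S_TorsF) (hTh : S_Thick)
    [Finite (MaximalSpectrum R)] (x : ColK R G) (n : ℕ) (hn : 0 < n) (hx : n • asm R G x = 0) :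
    ∃ l : ℕ, 0 < l ∧ l • x = 0 := by
  let D : ∀ M : MaximalSpectrum R, Thick (RF R M) := fun M =>
    (thick_nonempty hTh (RF R M)).some
  obtain ⟨k, hk, h⟩ := injS hSE hI hY hT D (n • x) (fun h _ => by
    rw [map_nsmul, hx, map_zero])
  exact ⟨k * n, Nat.mul_pos hk hn, by rw [mul_smul]; exact h⟩

end

end Pool.Agent.Y778.SL
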