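import Pool.Agent.Y778.SL.Stm

/-!
# Permutation modules with isomorphic rationalisations
-/

namespace Pool.Agent.Y778.SL

open MonoidAlgebra Pool.Agent.Y69 Pool.Agent.Y778.NK
open Pool.Agent.Y43.NK (yy yy_eq yy_compare)
open Pool.Agent.Y69.TK.ArtK (th th_single)

noncomputable section

section hat

variable (S : Type) [Ring S] (ι : Type) [Fintype ι] [DecidableEq ι] {X Y Z : Type}
  [Fintype X] [DecidableEq X] [Fintype Y] [DecidableEq Y] [Fintype Z] [DecidableEq Z]

/-- block diagonal integer matrix -/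
def hat (U : Matrix X Y ℤ) : Matrix (ι × X) (ι × Y) S :=
  Matrix.of fun p q => if p.1 = q.1 then ((U p.2 q.2 : ℤ) : S) else 0

theorem hat_mul (U : Matrix X Y ℤ) (V : Matrix Y Z ℤ) : hat S ι (U * V) = hat S ι U * hat S ι V := by
  ext ⟨i, x⟩ ⟨j, z⟩
  rw [Matrix.mul_apply, Fintype.sum_prod_type, Finset.sum_eq_single i]
  · unfold hat
    simp only [Matrix.of_apply, if_true, Matrix.mul_apply]
    split_ifs
    · push_cast; rfl
    · simp
  · intro k _ hk
    refine Finset.sum_eq_zero fun y _ => ?_
    unfold hat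
    simp [Ne.symm hk]
  · intro h; exact absurd (Finset.mem_univ _) h

theorem hat_one : hat S ι (1 : Matrix X X ℤ) = 1 := by
  ext ⟨i, x⟩ ⟨j, y⟩
  unfold hat
  simp only [Matrix.of_apply, Matrix.one_apply, Prod.mk.injEq]
  by_cases h : i = j <;> by_cases h' : x = y <;> simp [h, h']

end hat

section tw

variable {k : Type} [Field k] {G : Type} [Group G] {Z : Type}

/-- twisted matrix -/
def tw (r : G → Matrix Z Z ℤ) (x y : Z) : MonoidAlgebra k G →+ MonoidAlgebra k G where
  toFun a := a.coeff.sum fun g c => (single g (c * ((r g x y : ℤ) : k)) : MonoidAlgebra k G)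
  map_zero' := by rw [coeff_zero]; exact Finsupp.sum_zero_index
  map_add' a b := by
    rw [coeff_add]
    apply Finsupp.sum_add_index'
    · intro g; rw [zero_mul, single_zero]
    · intro g c d; rw [add_mul, single_add]

theorem tw_single (r : G → Matrix Z Z ℤ) (x y : Z) (g : G) (c : k) :
    tw r x y (single g c) = single g (c * ((r g x y : ℤ) : k)) := by
  show (single g c : MonoidAlgebra k G).coeff.sum
    (fun g c => (single g (c * ((r g x y : ℤ) : k)) : MonoidAlgebra k G)) = _
  rw [coeff_single, Finsupp.sum_single_index]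
  rw [zero_mul, single_zero]

theorem tw_zero (r : G → Matrix Z Z ℤ) (x y : Z) (h : ∀ g, ((r g x y : ℤ) : k) = 0)
    (a : MonoidAlgebra k G) : tw r x y a = 0 := by
  induction a using MonoidAlgebra.induction_linear with
  | zero => exact map_zero _
  | add a b ha hb => rw [map_add, ha, hb, add_zero]
  | single g c => rw [tw_single, h, mul_zero, single_zero]

/-- the integral permutation matrix -/
def pm (X : Type) [DecidableEq X] [MulAction G X] (g : G) : Matrix X X ℤ :=
  Matrix.of fun x y => if g • y = x then 1 else 0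

theorem conj_entry {X : Type} [Fintype X] [DecidableEq X] [MulAction G X] [Fintype Z]
    [DecidableEq Z] (U' : Matrix Z X ℤ) (U : Matrix X Z ℤ) (a : MonoidAlgebra k G) (x y : Z) :
    ∑ x', ∑ y', ((U' x x' : ℤ) : MonoidAlgebra k G) * th G X a x' y' *
      ((U y' y : ℤ) : MonoidAlgebra k G) = tw (fun g => U' * pm X g * U) x y a := by
  induction a using MonoidAlgebra.induction_linear with
  | zero => simp
  | add a b ha hb =>
    have h0 := map_add (tw (fun g => U' * pm X g * U) x y) a b
    rw [h0, ← ha, ← hb, ← Finset.sum_add_distrib]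
    refine Finset.sum_congr rfl fun x' _ => ?_
    rw [← Finset.sum_add_distrib]
    refine Finset.sum_congr rfl fun y' _ => ?_
    rw [map_add, Matrix.add_apply, mul_add, add_mul]
  | single g c =>
    rw [tw_single]
    have h1 : ∀ x' y', ((U' x x' : ℤ) : MonoidAlgebra k G) * th G X (single g c) x' y' *
        ((U y' y : ℤ) : MonoidAlgebra k G) =
        single g (c * ((U' x x' * pm X g x' y' * U y' y : ℤ) : k)) := by
      intro x' y'
      rw [th_single]
      unfold pm
      rw [Matrix.of_apply]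
      have h2 : ∀ n : ℤ, ((n : ℤ) : MonoidAlgebra k G) = single 1 (n : k) := by
        intro n
        exact MonoidAlgebra.intCast_def n
      split_ifs
      · rw [h2, h2, single_mul_single, single_mul_single, one_mul, mul_one]
        congr 1
        push_cast
        ring
      · rw [mul_zero, zero_mul, mul_zero, zero_mul, Int.cast_zero, mul_zero, single_zero]
    simp only [h1]
    have h3 : ∀ (s : Finset X) (f : X → k), ∑ i ∈ s, (single g (f i) : MonoidAlgebra k G) =
        single g (∑ i ∈ s, f i) := by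
      intro s f
      exact (map_sum (MonoidAlgebra.singleAddHom g) f s).symm
    simp only [h3]
    congr 1
    rw [Matrix.mul_apply]
    simp only [Matrix.mul_apply, Finset.sum_mul, Int.cast_sum, Finset.mul_sum]
    rw [Finset.sum_comm]

end tw

section main

variable {k : Type} [Field k] {G : Type} [Group G]

/-- the conjugated blown up matrix -/
def cj {X Z : Type} [MulAction G X] [Fintype X] [DecidableEq X] [Fintype Z] [DecidableEq Z]
    {ι : Type} [Fintype ι] [DecidableEq ι] (U' : Matrix Z X ℤ) (U : Matrix X Z ℤ)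
    (m : Matrix ι ι (MonoidAlgebra k G)) : Matrix (ι × Z) (ι × Z) (MonoidAlgebra k G) :=
  hat (MonoidAlgebra k G) ι U' * bl (th G X) m * hat (MonoidAlgebra k G) ι U

theorem cj_apply {X Z : Type} [MulAction G X] [Fintype X] [DecidableEq X] [Fintype Z]
    [DecidableEq Z] {ι : Type} [Fintype ι] [DecidableEq ι] (U' : Matrix Z X ℤ) (U : Matrix X Z ℤ)
    (m : Matrix ι ι (MonoidAlgebra k G)) (p q : ι × Z) :
    cj U' U m p q = tw (fun g => U' * pm X g * U) p.2 q.2 (m p.1 q.1) := by
  rw [← conj_entry]
  unfold cj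
  rw [Matrix.mul_assoc, Matrix.mul_apply, Fintype.sum_prod_type, Finset.sum_eq_single p.1]
  · refine Finset.sum_congr rfl fun x' _ => ?_
    rw [Matrix.mul_apply, Fintype.sum_prod_type, Finset.sum_eq_single q.1]
    · rw [Finset.mul_sum]
      refine Finset.sum_congr rfl fun y' _ => ?_
      unfold hat
      simp only [Matrix.of_apply, if_true]
      rw [mul_assoc]
      rfl
    · intro j _ hj
      refine Finset.sum_eq_zero fun y' _ => ?_
      unfold hat
      simp [hj]
    · intro h; exact absurd (Finset.mem_univ _) h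
  · intro j _ hj
    refine Finset.sum_eq_zero fun x' _ => ?_
    have : hat (MonoidAlgebra k G) ι U' p (j, x') = 0 := by
      unfold hat
      simp [Ne.symm hj]
    rw [this, zero_mul]
  · intro h; exact absurd (Finset.mem_univ _) h

theorem cj_idem {X Z : Type} [MulAction G X] [Fintype X] [DecidableEq X] [Fintype Z]
    [DecidableEq Z] {ι : Type} [Fintype ι] [DecidableEq ι] {U' : Matrix Z X ℤ} {U : Matrix X Z ℤ}
    (hU : U * U' = 1) {m : Matrix ι ι (MonoidAlgebra k G)} (hm : m * m = m) :
    cj U' U m * cj U' U m = cj U' U m := by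
  have h1 : hat (MonoidAlgebra k G) ι U * hat (MonoidAlgebra k G) ι U' = 1 := by rw [← hat_mul, hU, hat_one]
  have h2 := bl_idem (th G X) hm
  unfold cj
  calc hat (MonoidAlgebra k G) ι U' * bl (th G X) m * hat (MonoidAlgebra k G) ι U * (hat (MonoidAlgebra k G) ι U' * bl (th G X) m * hat (MonoidAlgebra k G) ι U)
      = hat (MonoidAlgebra k G) ι U' * bl (th G X) m * (hat (MonoidAlgebra k G) ι U * hat (MonoidAlgebra k G) ι U') * bl (th G X) m * hat (MonoidAlgebra k G) ι U := by
        simp only [Matrix.mul_assoc]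
    _ = hat (MonoidAlgebra k G) ι U' * (bl (th G X) m * bl (th G X) m) * hat (MonoidAlgebra k G) ι U := by
        rw [h1, Matrix.mul_one, Matrix.mul_assoc (hat (MonoidAlgebra k G) ι U')]
    _ = _ := by rw [h2]

theorem cl0_cj {X Z : Type} [MulAction G X] [Fintype X] [DecidableEq X] [Fintype Z]
    [DecidableEq Z] {ι : Type} [Fintype ι] [DecidableEq ι] {U' : Matrix Z X ℤ} {U : Matrix X Z ℤ}
    (hU : U * U' = 1) {m : Matrix ι ι (MonoidAlgebra k G)} (hm : m * m = m) :
    cl0 (cj U' U m) (cj_idem hU hm) = yy X hm := by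
  rw [yy_eq]
  have h1 : hat (MonoidAlgebra k G) ι U * hat (MonoidAlgebra k G) ι U' = 1 := by rw [← hat_mul, hU, hat_one]
  have h2 := bl_idem (th G X) hm
  apply cl0_swap _ _ (hat (MonoidAlgebra k G) ι U' * bl (th G X) m) (bl (th G X) m * hat (MonoidAlgebra k G) ι U)
  · unfold cj
    rw [Matrix.mul_assoc, ← Matrix.mul_assoc (bl (th G X) m), h2, Matrix.mul_assoc]
  · rw [Matrix.mul_assoc, ← Matrix.mul_assoc (hat (MonoidAlgebra k G) ι U), h1, Matrix.one_mul, h2]
    rfl

theorem pm_intertwine {X Y : Type} [Fintype X] [DecidableEq X] [MulAction G X] [Fintype Y]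
    [DecidableEq Y] [MulAction G Y] (P : Matrix X Y ℤ)
    (hP : ∀ (g : G) x y, P (g • x) (g • y) = P x y) (g : G) : pm X g * P = P * pm Y g := by
  ext x y
  rw [Matrix.mul_apply, Matrix.mul_apply, Finset.sum_eq_single (g⁻¹ • x),
    Finset.sum_eq_single (g • y)]
  · unfold pm
    rw [Matrix.of_apply, Matrix.of_apply, if_pos (smul_inv_smul _ _), if_pos rfl, one_mul, mul_one,
      ← hP g, smul_inv_smul]
  · intro z _ hz
    unfold pm
    rw [Matrix.of_apply, if_neg (Ne.symm hz), mul_zero]
  · intro h; exact absurd (Finset.mem_univ _) h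
  · intro z _ hz
    unfold pm
    rw [Matrix.of_apply, if_neg, zero_mul]
    intro h
    apply hz
    rw [← h, inv_smul_smul]
  · intro h; exact absurd (Finset.mem_univ _) h

/-- divisibility -/
theorem dvd_of_val {p : ℕ} (hp : p.Prime) {a b c d : ℤ} (hd : d ≠ 0) (hc : c ≠ 0)
    (h : a * c = d * b) (hv : padicValInt p c < padicValInt p d) : (p : ℤ) ∣ a := by
  have : Fact p.Prime := ⟨hp⟩
  by_cases ha : a = 0
  · rw [ha]; exact dvd_zero _
  have hb : b ≠ 0 := by
    rintro rfl
    rw [mul_zero] at h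
    rcases mul_eq_zero.1 h with h | h
    · exact ha h
    · exact hc h
  have h1 := congrArg (padicValInt p) h
  rw [padicValInt.mul ha hc, padicValInt.mul hd hb] at h1
  have h2 : 1 ≤ padicValInt p a := by omega
  have h3 := (padicValInt_dvd_iff (p := p) 1 a).2 (Or.inr h2)
  rwa [pow_one] at h3

theorem yySL (hT : S_Tri) (hS : S_SNF) : S_YY := by
  intro k _ G _ _ X Y _ _ _ _ _ _ P Q δ hδ h1 h2 h3 ι _ _ m hm
  by_cases hu : ((δ : ℕ) : k) = 0
  swap
  · exact yy_compare hm P Q δ (isUnit_iff_ne_zero.2 hu) h1 h2 h3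
  obtain ⟨p, hchar⟩ := CharP.exists k
  have hp : p.Prime := by
    rcases CharP.char_is_prime_or_zero k p with h | h
    · exact h
    · subst h
      have := CharP.charP_to_charZero k
      exact absurd (Nat.cast_eq_zero.1 hu) hδ.ne'
  have hpF : Fact p.Prime := ⟨hp⟩
  obtain ⟨Z, _, _, U, U', V, V', d, hU, hU', hV, hV', hd, hP⟩ := hS X Y P Q δ hδ h1 h2
  let a : Z → ℕ := fun z => padicValInt p (d z)
  let r1 : G → Matrix Z Z ℤ := fun g => U' * pm X g * U
  let r2 : G → Matrix Z Z ℤ := fun g => V * pm Y g * V'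
  have hr : ∀ g x y, r1 g x y * d y = d x * r2 g x y := by
    intro g x y
    have e1 : r1 g * Matrix.diagonal d = Matrix.diagonal d * r2 g := by
      have e2 := pm_intertwine P h3 g
      have e3 : U' * (pm X g * P) * V' = U' * (P * pm Y g) * V' := by rw [e2]
      rw [hP] at e3
      have e4 : U' * (pm X g * (U * Matrix.diagonal d * V)) * V' =
          U' * pm X g * U * Matrix.diagonal d * (V * V') := by
        simp only [Matrix.mul_assoc]
      have e5 : U' * (U * Matrix.diagonal d * V * pm Y g) * V' =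
          (U' * U) * Matrix.diagonal d * (V * pm Y g * V') := by
        simp only [Matrix.mul_assoc]
      rw [e4, e5, hV, hU', Matrix.mul_one, Matrix.one_mul] at e3
      exact e3
    have e6 := congrFun (congrFun e1 x) y
    rwa [Matrix.mul_diagonal, Matrix.diagonal_mul] at e6
  have hcast : ∀ n : ℤ, (p : ℤ) ∣ n → ((n : ℤ) : k) = 0 := fun n hn =>
    (CharP.intCast_eq_zero_iff k p n).2 hn
  -- the two idempotents
  have c1 := cl0_cj (G := G) (X := X) hU hm
  have c2 := cl0_cj (G := G) (X := Y) hV' hm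
  have z1 : ∀ x y : ι × Z, a y.2 < a x.2 → cj (X := X) U' U m x y = 0 := by
    intro x y hxy
    rw [cj_apply]
    apply tw_zero
    intro g
    apply hcast
    exact dvd_of_val hp (hd x.2) (hd y.2) (hr g x.2 y.2) hxy
  have z2 : ∀ x y : ι × Z, a x.2 < a y.2 → cj (X := Y) V V' m x y = 0 := by
    intro x y hxy
    rw [cj_apply]
    apply tw_zero
    intro g
    apply hcast
    have := hr g x.2 y.2
    exact dvd_of_val hp (hd y.2) (hd x.2) (b := r1 g x.2 y.2) (by
      show r2 g x.2 y.2 * d x.2 = d y.2 * r1 g x.2 y.2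
      rw [mul_comm, ← this, mul_comm]) hxy
  obtain ⟨M, hM⟩ : ∃ M : ℕ, ∀ z, a z ≤ M := by
    refine ⟨∑ z, a z, fun z => Finset.single_le_sum (fun _ _ => Nat.zero_le _) (Finset.mem_univ z)⟩
  obtain ⟨i1, t1⟩ := hT _ (ι × Z) (fun x => a x.2) _ (cj_idem hU hm) z1
    (Matrix.of fun x y => if a x.2 = a y.2 then cj (X := X) U' U m x y else 0) (fun _ _ => rfl)
  obtain ⟨i2, t2⟩ := hT _ (ι × Z) (fun x => M - a x.2) _ (cj_idem hV' hm)
    (fun x y hxy => z2 x y (by have := hM x.2; have := hM y.2; omega))
    (Matrix.of fun x y => if a x.2 = a y.2 then cj (X := Y) V V' m x y else 0) (fun x y => by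
      rw [Matrix.of_apply]
      have h4 : a x.2 = a y.2 ↔ M - a x.2 = M - a y.2 := by
        have := hM x.2; have := hM y.2; omega
      by_cases h5 : a x.2 = a y.2
      · rw [if_pos h5, if_pos (h4.1 h5)]
      · rw [if_neg h5, if_neg (fun h => h5 (h4.2 h))])
  rw [← c1, ← c2, t1, t2]
  -- conjugation by the prime-to-`p` parts
  have hd' : ∀ z, ∃ e : ℤ, d z = (p : ℤ) ^ a z * e ∧ ((e : ℤ) : k) ≠ 0 := by
    intro z
    obtain ⟨e, he⟩ : (p : ℤ) ^ a z ∣ d z := (padicValInt_dvd_iff _ _).2 (Or.inr le_rfl)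
    refine ⟨e, he, fun h => ?_⟩
    obtain ⟨f, hf⟩ := (CharP.intCast_eq_zero_iff k p e).1 h
    have h5 : (p : ℤ) ^ (a z + 1) ∣ d z := ⟨f, by rw [he, hf, pow_succ]; ring⟩
    rcases (padicValInt_dvd_iff _ _).1 h5 with h6 | h6
    · exact hd z h6
    · exact absurd h6 (by show ¬ (a z + 1 ≤ a z); omega)
  choose e he hek using hd'
  let ee : ι × Z → MonoidAlgebra k G := fun x => single 1 ((e x.2 : ℤ) : k)
  let ei : ι × Z → MonoidAlgebra k G := fun x => single 1 (((e x.2 : ℤ) : k)⁻¹)
  apply cl0_conj _ _ (Matrix.diagonal ee) (Matrix.diagonal ei)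
  · rw [Matrix.diagonal_mul_diagonal]
    have : (fun i : ι × Z => ei i * ee i) = fun _ => 1 := by
      funext i
      show single 1 _ * single 1 _ = _
      rw [single_mul_single, one_mul, inv_mul_cancel₀ (hek i.2), one_def]
    rw [this, Matrix.diagonal_one]
  · ext ⟨i, x⟩ ⟨j, y⟩ : 1
    rw [Matrix.mul_diagonal, Matrix.diagonal_mul, Matrix.of_apply, Matrix.of_apply]
    by_cases hxy : a x = a y
    swap
    · rw [if_neg hxy, if_neg hxy, mul_zero, zero_mul]
    rw [if_pos hxy, if_pos hxy, cj_apply, cj_apply]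
    show tw r1 x y (m i j) = single 1 _ * tw r2 x y (m i j) * single 1 _
    generalize m i j = b
    induction b using MonoidAlgebra.induction_linear with
    | zero => simp
    | add b b' hb hb' => rw [map_add, map_add, hb, hb', mul_add, add_mul]
    | single g c =>
      rw [tw_single, tw_single, single_mul_single, single_mul_single, one_mul, mul_one]
      congr 1
      have h6 : r1 g x y * e y = e x * r2 g x y := by
        have h7 := hr g x y
        rw [he x, he y, hxy] at h7
        have h8 : ((p : ℤ) ^ a y) ≠ 0 := pow_ne_zero _ (by exact_mod_cast hp.ne_zero)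
        apply mul_left_cancel₀ h8
        linarith
      have h9 : ((r1 g x y : ℤ) : k) * (e y : k) = (e x : k) * ((r2 g x y : ℤ) : k) := by
        exact_mod_cast congrArg (Int.cast : ℤ → k) h6
      have h10 := hek y
      field_simp
      linear_combination c * h9

end main

end

end Pool.Agent.Y778.SL
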