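import Pool.Agent.Y778.SL.Stm

/-!
# Artin induction for `K₀(R[H])`, `R` semilocal
-/

open Matrix

namespace Pool.Agent.Y778.SL

open MonoidAlgebra Pool.Agent.Y69 Pool.Agent.Y778.NK
open Pool.Agent.Y43.NK (yy yy_eq yy_XX yy_point yy_induced)
open Pool.Agent.Y69.TK.ArtK (th th_single)
open H842 (XX artin_matrix)

noncomputable section

theorem mapRing_single {R S : Type} [CommRing R] [CommRing S] (θ : R →+* S) {G : Type} [Group G]
    (g : G) (r : R) : mapRingHom G θ (single g r) = single g (θ r) := by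
  simp

theorem th_map {R S : Type} [CommRing R] [CommRing S] (θ : R →+* S) {G : Type} [Group G]
    {X : Type} [MulAction G X] [Fintype X] [DecidableEq X] (a : MonoidAlgebra R G) (x y : X) :
    mapRingHom G θ (th G X a x y) = th G X (mapRingHom G θ a) x y := by
  induction a using MonoidAlgebra.induction_linear with
  | zero => simp
  | add a b ha hb => simp only [map_add, Matrix.add_apply, ha, hb]
  | single g r =>
    rw [mapRing_single, th_single, th_single]
    split_ifs
    · rw [mapRing_single]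
    · exact map_zero _

theorem yy_map {R S : Type} [CommRing R] [CommRing S] (θ : R →+* S) {G : Type} [Group G]
    {X : Type} [MulAction G X] [Finite X] {ι : Type} [Fintype ι] [DecidableEq ι]
    {m : Matrix ι ι (MonoidAlgebra R G)} (hm : m * m = m) :
    K0.map (mapRingHom G θ) (yy X hm) = yy X (map_idem (mapRingHom G θ) hm) := by
  classical
  have := Fintype.ofFinite X
  rw [yy_eq, yy_eq, K0map_cl0]
  apply cl0_eq
  ext ⟨i, x⟩ ⟨j, y⟩ : 1
  exact th_map θ (m i j) x y

theorem yy_semilocal (hI : S_Inj) (hY : S_YY) {R : Type} [CommRing R] [Finite (MaximalSpectrum R)]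
    {G : Type} [Group G] [Finite G] {X Y : Type} [MulAction G X] [Fintype X]
    [DecidableEq X] [MulAction G Y] [Fintype Y] [DecidableEq Y] (P : Matrix X Y ℤ)
    (Q : Matrix Y X ℤ) (δ : ℕ) (hδ : 0 < δ) (h1 : P * Q = (δ : Matrix X X ℤ))
    (h2 : Q * P = (δ : Matrix Y Y ℤ)) (h3 : ∀ (g : G) x y, P (g • x) (g • y) = P x y)
    {ι : Type} [Fintype ι] [DecidableEq ι] {m : Matrix ι ι (MonoidAlgebra R G)}
    (hm : m * m = m) : yy X hm = yy Y hm := by
  rw [← sub_eq_zero]
  apply hI
  intro M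
  let _ : Field (R ⧸ M.asIdeal) := Ideal.Quotient.field _
  rw [map_sub, yy_map, yy_map, sub_eq_zero]
  exact hY _ G X Y P Q δ hδ h1 h2 h3 ι _ _

/-- Artin induction for `K₀(R[G])`, `R` semilocal. -/
theorem artinSL (hI : S_Inj) (hY : S_YY) (R : Type) [CommRing R] [Finite (MaximalSpectrum R)]
    (G : Type) [Group G] [Finite G] (x : K0 (MonoidAlgebra R G)) : ∃ k : ℕ, 0 < k ∧
      k • x ∈ AddSubgroup.closure {y | ∃ (C : Subgroup G) (_ : IsCyclic C)
        (z : K0 (MonoidAlgebra R C)), y = K0.map (mapDomainRingHom R C.subtype) z} := by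
  let S : AddSubgroup (K0 (MonoidAlgebra R G)) :=
    AddSubgroup.closure {y | ∃ (C : Subgroup G) (_ : IsCyclic C)
        (z : K0 (MonoidAlgebra R C)), y = K0.map (MonoidAlgebra.mapDomainRingHom R C.subtype) z}
  show ∃ k : ℕ, 0 < k ∧ k • x ∈ S
  induction x using K0.induction with
  | hadd x y hx hy =>
    obtain ⟨k, hk, hx⟩ := hx
    obtain ⟨l, hl, hy⟩ := hy
    refine ⟨k * l, Nat.mul_pos hk hl, ?_⟩
    rw [nsmul_add]
    apply S.add_mem
    · rw [mul_comm, mul_nsmul']
      exact S.nsmul_mem hx l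
    · rw [mul_nsmul']
      exact S.nsmul_mem hy k
  | hneg x hx =>
    obtain ⟨k, hk, hx⟩ := hx
    refine ⟨k, hk, ?_⟩
    rw [smul_neg]
    exact S.neg_mem hx
  | hcl N m hm =>
    obtain ⟨n, n', B, B', s, hs, ⟨l₁, l₂, hl₁, hl₂, hB, hB'⟩, f1, d1, f2, d2, P, Q, δ, hδ, h1, h2,
      h3⟩ := artin_matrix G
    have h := yy_semilocal hI hY P Q δ hδ h1 h2 h3 hm
    refine ⟨s, hs, ?_⟩
    have hmem : ∀ C : Subgroup G, IsCyclic C → yy (G ⧸ C) hm ∈ S := by
      intro C hC
      obtain ⟨z, hz⟩ := yy_induced C hm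
      rw [hz]
      exact AddSubgroup.subset_closure ⟨C, hC, z, rfl⟩
    have hlist : ∀ l : List (Subgroup G), (∀ C ∈ l, IsCyclic C) →
        (l.map fun C => yy (G ⧸ C) hm).sum ∈ S := by
      intro l hl
      apply AddSubgroup.list_sum_mem
      intro y hy
      obtain ⟨C, hC, rfl⟩ := List.mem_map.1 hy
      exact hmem C (hl C hC)
    have e1 : ∀ (n : ℕ) (B : Fin n → Subgroup G), yy (XX B) hm =
        ((List.ofFn B).map fun C => yy (G ⧸ C) hm).sum := by
      intro n B
      rw [yy_XX, List.map_ofFn, List.sum_ofFn]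
      rfl
    rw [e1, e1, hB, hB'] at h
    rw [List.map_append, List.sum_append, List.map_replicate, List.sum_replicate] at h
    have e2 : yy (G ⧸ (⊤ : Subgroup G)) hm = cl0 m hm := by
      have : Subsingleton (G ⧸ (⊤ : Subgroup G)) := QuotientGroup.subsingleton_quotient_top
      let _ : Unique (G ⧸ (⊤ : Subgroup G)) :=
        ⟨⟨((1 : G) : G ⧸ (⊤ : Subgroup G))⟩, fun _ => Subsingleton.elim _ _⟩
      exact yy_point hm
    rw [e2] at h
    have h4 : s • cl0 m hm = (l₂.map fun C => yy (G ⧸ C) hm).sum -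
        (l₁.map fun C => yy (G ⧸ C) hm).sum := by
      rw [← h]
      abel
    rw [h4]
    exact S.sub_mem (hlist l₂ hl₂) (hlist l₁ hl₁)

end

end Pool.Agent.Y778.SL
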