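import Pool.Agent.Y778.NK.Inj2

/-!
# Universal property of `K₀`, maps to matrix rings
-/

open Matrix

namespace Pool.Agent.Y778.SL

open MonoidAlgebra Pool.Agent.Y69 Pool.Agent.Y778.NK

noncomputable section

/-- the universal property of `K₀`, functions on idempotent matrices -/
theorem K0lift {R : Type} [Ring R] {B : Type*} [AddCommGroup B]
    (F : ∀ (n : ℕ), IdMat R n → B)
    (hsum : ∀ (m n : ℕ) (e : IdMat R m) (f : IdMat R n) (d : IdMat R (m + n)),
      (d : Matrix (Fin (m + n)) (Fin (m + n)) R) =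
        Matrix.reindex finSumFinEquiv finSumFinEquiv
          (Matrix.fromBlocks (e : Matrix (Fin m) (Fin m) R) 0 0 (f : Matrix (Fin n) (Fin n) R)) →
      F (m + n) d = F m e + F n f)
    (hswap : ∀ (m n : ℕ) (e : IdMat R m) (f : IdMat R n) (u : Matrix (Fin m) (Fin n) R)
      (v : Matrix (Fin n) (Fin m) R), u * v = (e : Matrix (Fin m) (Fin m) R) →
      v * u = (f : Matrix (Fin n) (Fin n) R) → F m e = F n f) :
    ∃ T : K0 R →+ B, ∀ (n : ℕ) (e : IdMat R n), T (K0.mk e) = F n e := by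
  let g : FreeAbelianGroup (Σ n : ℕ, IdMat R n) →+ B :=
    FreeAbelianGroup.lift fun x => F x.1 x.2
  have hg : AddSubgroup.closure (K0Rel R) ≤ g.ker := by
    rw [AddSubgroup.closure_le]
    rintro x (⟨m, n, e, f, d, hd, rfl⟩ | ⟨m, n, e, f, u, v, h1, h2, rfl⟩)
    · show g _ = 0
      rw [map_sub, map_add]
      simp only [g, FreeAbelianGroup.lift_apply_of]
      rw [hsum m n e f d hd, sub_self]
    · show g _ = 0
      rw [map_sub]
      simp only [g, FreeAbelianGroup.lift_apply_of]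
      rw [hswap m n e f u v h1 h2, sub_self]
  refine ⟨QuotientAddGroup.lift _ g hg, ?_⟩
  intro n e
  show g _ = _
  simp only [g, FreeAbelianGroup.lift_apply_of]

section blow

variable {S S' : Type} [Ring S] [Ring S'] {X : Type} [Fintype X] [DecidableEq X]
  (θ : S →+* Matrix X X S')

/-- the blown up rectangular matrix -/
def blr {ι κ : Type} (e : Matrix ι κ S) : Matrix (ι × X) (κ × X) S' :=
  Matrix.of fun p q => θ (e p.1 q.1) p.2 q.2

theorem blr_mul {ι κ μ : Type} [Fintype κ] (u : Matrix ι κ S) (v : Matrix κ μ S) :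
    blr θ u * blr θ v = blr θ (u * v) := by
  ext p q : 1
  rw [Matrix.mul_apply, Fintype.sum_prod_type]
  have h1 : blr θ (u * v) p q = θ ((u * v) p.1 q.1) p.2 q.2 := rfl
  rw [h1, Matrix.mul_apply, map_sum, Matrix.sum_apply]
  refine Finset.sum_congr rfl fun k _ => ?_
  rw [map_mul, Matrix.mul_apply]
  rfl

theorem bl_eq {ι : Type} (e : Matrix ι ι S) : bl θ e = blr θ e := rfl

theorem blowK_exists : ∃ B : K0 S →+ K0 S', ∀ (n : ℕ) (e : IdMat S n),
    B (K0.mk e) = cl0 (bl θ (e : Matrix (Fin n) (Fin n) S)) (bl_idem θ e.2) := by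
  apply K0lift
  · intro m n e f d hd
    rw [← cl0_blocks]
    apply cl0_congr ((Equiv.prodCongr finSumFinEquiv.symm (Equiv.refl X)).trans
      (Equiv.sumProdDistrib (Fin m) (Fin n) X))
    rintro ⟨i, x⟩ ⟨j, y⟩
    obtain ⟨i, rfl⟩ := finSumFinEquiv.surjective i
    obtain ⟨j, rfl⟩ := finSumFinEquiv.surjective j
    have h1 : bl θ (d : Matrix (Fin (m + n)) (Fin (m + n)) S) (finSumFinEquiv i, x)
        (finSumFinEquiv j, y) = θ (Matrix.fromBlocks (e : Matrix (Fin m) (Fin m) S) 0 0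
          (f : Matrix (Fin n) (Fin n) S) i j) x y := by
      unfold bl
      rw [hd]
      simp
    rw [h1]
    rcases i with i | i <;> rcases j with j | j <;> simp [bl]
  · intro m n e f u v h1 h2
    apply cl0_swap _ _ (blr θ u) (blr θ v)
    · rw [blr_mul, h1]; rfl
    · rw [blr_mul, h2]; rfl

/-- the map `K₀(S) → K₀(S')` of a ring homomorphism `S → M_X(S')` -/
def blowK : K0 S →+ K0 S' := (blowK_exists θ).choose

theorem blowK_mk {n : ℕ} (e : IdMat S n) : blowK θ (K0.mk e) =
    cl0 (bl θ (e : Matrix (Fin n) (Fin n) S)) (bl_idem θ e.2) := (blowK_exists θ).choose_spec n e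

theorem blowK_cl0 {ι : Type} [Fintype ι] [DecidableEq ι] {e : Matrix ι ι S} (he : e * e = e) :
    blowK θ (cl0 e he) = cl0 (bl θ e) (bl_idem θ he) := by
  have h : cl0 e he = K0.mk ⟨Matrix.reindex (Fintype.equivFin ι) (Fintype.equivFin ι) e,
    reindex_idem _ he⟩ := rfl
  rw [h, blowK_mk]
  apply cl0_congr (Equiv.prodCongr (Fintype.equivFin ι).symm (Equiv.refl X))
  rintro ⟨i, x⟩ ⟨j, y⟩
  simp [bl]

end blow

end

end Pool.Agent.Y778.SL
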