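import Pool.Agent.Y778.NK.K0Def
import Pool.Agent.Y69.ColDef

/-!
# The assembly map `colim K₀(R[H]) → K₀(R[G])`: statement
-/

namespace Pool.Agent.Y778.SL.St

open MonoidAlgebra Pool.Agent.Y69 Pool.Agent.Y778.NK

noncomputable section

/-- The group `K₀(R[G])`. -/
def KG (R G : Type) [CommRing R] [Group G] : Type := K0 (MonoidAlgebra R G)

instance (R G : Type) [CommRing R] [Group G] : AddCommGroup (KG R G) :=
  instAddCommGroupK0 (MonoidAlgebra R G)

/-- The map `K₀(R[G]) → K₀(R[H])` induced by a homomorphism `φ : G → H`. -/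
def KG.map (R : Type) [CommRing R] {G H : Type} [Group G] [Group H] (φ : G →* H) :
    KG R G →+ KG R H := K0.map (mapDomainRingHom R φ)

/-- The group `K₀(R[H])` of a finite subgroup `H` of `G`. -/
def KF (R : Type) [CommRing R] {G : Type} [Group G] (H : FinSub G) : Type := KG R H.1

instance (R : Type) [CommRing R] {G : Type} [Group G] (H : FinSub G) : AddCommGroup (KF R H) :=
  instAddCommGroupKG R H.1

/-- The map induced by a homomorphism of finite subgroups. -/
def KF.map (R : Type) [CommRing R] {G : Type} [Group G] {H K : FinSub G} (φ : H.1 →* K.1) :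
    KF R H →+ KF R K := KG.map R φ

/-- The free abelian group on the symbols `[H, x]`, `H` a finite subgroup of `G`,
`x ∈ K₀(R[H])`. -/
def Free (R G : Type) [CommRing R] [Group G] : Type := FreeAbelianGroup (Σ H : FinSub G, KF R H)

instance (R G : Type) [CommRing R] [Group G] : AddCommGroup (Free R G) :=
  instAddCommGroupFreeAbelianGroup _

/-- The symbol `[H, x]`. -/
def Free.of {R G : Type} [CommRing R] [Group G] (H : FinSub G) (x : KF R H) : Free R G :=
  FreeAbelianGroup.of ⟨H, x⟩

/-- The relations of the colimit: `[H, x]` is additive in `x`, and `[K, φ(x)] = [H, x]` for the maps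
`φ : H → K` given by conjugation with an element of `G`. -/
def Rel (R G : Type) [CommRing R] [Group G] : Set (Free R G) :=
  {z | (∃ (H : FinSub G) (x y : KF R H),
      z = Free.of H (x + y) - (Free.of H x + Free.of H y)) ∨
    ∃ (H K : FinSub G) (g : G) (φ : H.1 →* K.1) (x : KF R H),
      (∀ h : H.1, (φ h : G) = g * h * g⁻¹) ∧ z = Free.of K (KF.map R φ x) - Free.of H x}

/-- `colim K₀(R[H])` over the finite subgroups `H` of `G`. -/
def KColim (R G : Type) [CommRing R] [Group G] : Type :=
  Free R G ⧸ AddSubgroup.closure (Rel R G)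

instance (R G : Type) [CommRing R] [Group G] : AddCommGroup (KColim R G) :=
  QuotientAddGroup.Quotient.addCommGroup _

/-- The structure map `K₀(R[H]) → colim K₀(R[-])` of a finite subgroup. -/
def KColim.ι {R G : Type} [CommRing R] [Group G] (H : FinSub G) (x : KF R H) : KColim R G :=
  QuotientAddGroup.mk' (AddSubgroup.closure (Rel R G)) (Free.of H x)

/-- The map `K₀(R[H]) → K₀(R[G])` induced by the inclusion of a finite subgroup. -/
def KF.incl {R G : Type} [CommRing R] [Group G] (H : FinSub G) : KF R H →+ KG R G :=
  KG.map R H.1.subtype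

end

end Pool.Agent.Y778.SL.St
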