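import Pool.Agent.Y778.SL.Art
import Pool.Agent.Y778.SL.K0Ext

/-!
# Lifted traces on `K₀(R[G])`, `R` semilocal
-/

open Matrix

namespace Pool.Agent.Y778.SL

open MonoidAlgebra Pool.Agent.Y69 Pool.Agent.Y69.StepC Pool.Agent.Y778.NK

noncomputable section

/-- a choice of nilpotent extensions -/
structure Thick (k : Type) [Field k] where
  W : ℕ → Type
  [ring : ∀ n, CommRing (W n)]
  θ : ∀ n, W n →+* k
  thick : IsThick k W θ

attribute [instance] Thick.ring

theorem thick_nonempty (hTh : S_Thick) (k : Type) [Field k] : Nonempty (Thick k) := by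
  obtain ⟨W, i, θ, h⟩ := hTh k
  exact ⟨⟨W, θ, h⟩⟩

section lift

variable (hN : S_Nil) {k : Type} [Field k] (D : Thick k) (n : ℕ)

/-- the isomorphism `K₀(W n [G]) = K₀(k[G])` -/
def lftE (G : Type) [Group G] : K0 (MonoidAlgebra (D.W n) G) ≃+ K0 (MonoidAlgebra k G) :=
  AddEquiv.ofBijective (K0.map (mapRingHom G (D.θ n)))
    (hN _ _ (D.θ n) (D.thick.1 n).1 (D.thick.1 n).2 G)

/-- the lift of classes -/
def lft (G : Type) [Group G] : K0 (MonoidAlgebra k G) →+ K0 (MonoidAlgebra (D.W n) G) :=
  (lftE hN D n G).symm.toAddMonoidHom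

theorem map_lft {G : Type} [Group G] (x : K0 (MonoidAlgebra k G)) :
    K0.map (mapRingHom G (D.θ n)) (lft hN D n G x) = x :=
  (lftE hN D n G).apply_symm_apply x

theorem lft_unique {G : Type} [Group G] {x : K0 (MonoidAlgebra k G)}
    {y : K0 (MonoidAlgebra (D.W n) G)} (h : K0.map (mapRingHom G (D.θ n)) y = x) :
    lft hN D n G x = y := by
  rw [← h]
  exact (lftE hN D n G).symm_apply_apply y

theorem coef_map {R S : Type} [CommRing R] [CommRing S] (θ : R →+* S) {G H : Type} [Group G]
    [Group H] (φ : G →* H) (x : K0 (MonoidAlgebra R G)) :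
    K0.map (mapRingHom H θ) (K0.map (mapDomainRingHom R φ) x) =
      K0.map (mapDomainRingHom S φ) (K0.map (mapRingHom G θ) x) := by
  rw [K0map_comp, K0map_comp, mapRing_mapDomain]

theorem lft_map {G H : Type} [Group G] [Group H] (φ : G →* H) (x : K0 (MonoidAlgebra k G)) :
    lft hN D n H (K0.map (mapDomainRingHom k φ) x) =
      K0.map (mapDomainRingHom (D.W n) φ) (lft hN D n G x) := by
  apply lft_unique
  rw [coef_map, map_lft]

end lift

section restriction

/-- restriction to a subgroup -/
def resK (R : Type) [CommRing R] {C : Type} [CommGroup C] (D : Subgroup C) [Fintype (C ⧸ D)]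
    [DecidableEq (C ⧸ D)] : K0 (MonoidAlgebra R C) →+ K0 (MonoidAlgebra R D) :=
  blowK (TK.ArtK.ps D)

theorem ps_map {R S : Type} [CommRing R] [CommRing S] (θ : R →+* S) {C : Type} [CommGroup C]
    (D : Subgroup C) [Fintype (C ⧸ D)] [DecidableEq (C ⧸ D)] (a : MonoidAlgebra R C)
    (x y : C ⧸ D) : mapRingHom D θ (TK.ArtK.ps D a x y) =
      TK.ArtK.ps D (mapRingHom C θ a) x y := by
  classical
  induction a using MonoidAlgebra.induction_linear with
  | zero => simp
  | add a b ha hb => simp only [map_add, Matrix.add_apply, ha, hb]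
  | single g r =>
    rw [mapRing_single, TK.ArtK.ps_single, TK.ArtK.ps_single, Matrix.smul_apply,
      Matrix.smul_apply]
    show mapRingHom D θ (r • (if h : g • y = x then _ else 0 : MonoidAlgebra R D)) =
      θ r • (if h : g • y = x then _ else 0 : MonoidAlgebra S D)
    by_cases h : g • y = x
    · rw [dif_pos h, dif_pos h, MonoidAlgebra.of_apply, MonoidAlgebra.of_apply,
        MonoidAlgebra.smul_single, MonoidAlgebra.smul_single, mapRing_single, smul_eq_mul,
        smul_eq_mul, mul_one, mul_one]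
    · rw [dif_neg h, dif_neg h, smul_zero, smul_zero, map_zero]

theorem resK_coef {R S : Type} [CommRing R] [CommRing S] (θ : R →+* S) {C : Type} [CommGroup C]
    (D : Subgroup C) [Fintype (C ⧸ D)] [DecidableEq (C ⧸ D)] (x : K0 (MonoidAlgebra R C)) :
    K0.map (mapRingHom D θ) (resK R D x) = resK S D (K0.map (mapRingHom C θ) x) := by
  unfold resK
  induction x using K0.induction with
  | hadd x y hx hy => rw [map_add, map_add, map_add, map_add, hx, hy]
  | hneg x hx => rw [map_neg, map_neg, map_neg, map_neg, hx]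
  | hcl n e he =>
    rw [blowK_cl0, K0map_cl0, K0map_cl0, blowK_cl0]
    apply cl0_eq
    ext ⟨i, x⟩ ⟨j, y⟩ : 1
    exact ps_map θ D (e i j) x y

theorem bb_resK {R : Type} [CommRing R] {C : Type} [CommGroup C] (D : Subgroup C)
    [Fintype (C ⧸ D)] [DecidableEq (C ⧸ D)] (u : K0 (MonoidAlgebra R C)) (d : D) :
    bb R (resK R D u) d = (Fintype.card (C ⧸ D) : ℕ) * bb R u d := by
  unfold resK
  induction u using K0.induction with
  | hadd x y hx hy =>
    unfold bb at hx hy ⊢
    rw [map_add, map_add, map_add, hx, hy, mul_add]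
  | hneg x hx =>
    unfold bb at hx ⊢
    rw [map_neg, map_neg, map_neg, hx, mul_neg]
  | hcl n e he =>
    rw [blowK_cl0, bb_cl0, bb_cl0, Fintype.sum_prod_type, Finset.mul_sum]
    refine Finset.sum_congr rfl fun i _ => ?_
    have h1 : ∀ x : C ⧸ D, ((bl (TK.ArtK.ps D) e (i, x) (i, x)).coeff d : R) =
        (e i i).coeff d := fun x => ps_diag D (e i i) x d
    rw [Finset.sum_congr rfl fun x _ => h1 x, Finset.sum_const, Finset.card_univ, nsmul_eq_mul]

end restriction

section semilocal

variable (hN : S_Nil) (R : Type) [CommRing R]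

/-- the residue fields -/
abbrev RF (M : MaximalSpectrum R) : Type := R ⧸ M.asIdeal

instance rfField (M : MaximalSpectrum R) : Field (RF R M) := Ideal.Quotient.field _

/-- residue homomorphism -/
def rfHom (M : MaximalSpectrum R) : R →+* RF R M := Ideal.Quotient.mk M.asIdeal

variable {R}
variable (D : ∀ M : MaximalSpectrum R, Thick (RF R M))

/-- values of the traces -/
abbrev La : Type := ∀ (M : MaximalSpectrum R) (n : ℕ), (D M).W n

/-- the component of a class -/
def cmp (M : MaximalSpectrum R) (n : ℕ) (G : Type) [Group G] :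
    K0 (MonoidAlgebra R G) →+ K0 (MonoidAlgebra ((D M).W n) G) :=
  (lft hN (D M) n G).comp (K0.map (mapRingHom G (rfHom R M)))

theorem cmp_map (M : MaximalSpectrum R) (n : ℕ) {G H : Type} [Group G] [Group H] (φ : G →* H)
    (x : K0 (MonoidAlgebra R G)) : cmp hN D M n H (K0.map (mapDomainRingHom R φ) x) =
      K0.map (mapDomainRingHom _ φ) (cmp hN D M n G x) := by
  unfold cmp
  rw [AddMonoidHom.comp_apply, AddMonoidHom.comp_apply, coef_map, lft_map]

theorem cmp_res (M : MaximalSpectrum R) (n : ℕ) {C : Type} [CommGroup C]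
    (B : Subgroup C) [Fintype (C ⧸ B)] [DecidableEq (C ⧸ B)] (x : K0 (MonoidAlgebra R C)) :
    cmp hN D M n B (resK R B x) = resK _ B (cmp hN D M n C x) := by
  unfold cmp
  rw [AddMonoidHom.comp_apply, AddMonoidHom.comp_apply, resK_coef]
  apply lft_unique
  rw [resK_coef, map_lft]

/-- the lifted traces -/
def TS {G : Type} [Group G] (h : G → ℤ) : K0 (MonoidAlgebra R G) →+ La D :=
  AddMonoidHom.pi fun M => AddMonoidHom.pi fun n => (T ((D M).W n) h).comp (cmp hN D M n G)

theorem TS_apply {G : Type} [Group G] (h : G → ℤ) (x : K0 (MonoidAlgebra R G))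
    (M : MaximalSpectrum R) (n : ℕ) : TS hN D h x M n = T ((D M).W n) h (cmp hN D M n G x) := rfl

theorem TS_map {G H : Type} [Group G] [Group H] (φ : G →* H) {h : H → ℤ} (hh : IsCls h)
    (x : K0 (MonoidAlgebra R G)) :
    TS hN D h (K0.map (mapDomainRingHom R φ) x) = TS hN D (fun g => h (φ g)) x := by
  funext M n
  rw [TS_apply, TS_apply, cmp_map, T_map φ hh]

/-- values at the elements of a commutative group -/
def bS {C : Type} [CommGroup C] (u : K0 (MonoidAlgebra R C)) (c : C) : La D :=
  fun M n => bb ((D M).W n) (cmp hN D M n C u) c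

theorem TS_eq_sum {C : Type} [CommGroup C] [Fintype C] (h : C → ℤ) (u : K0 (MonoidAlgebra R C)) :
    TS hN D h u = ∑ c, bS hN D u c * ((h c : ℤ) : La D) := by
  funext M n
  rw [TS_apply, T_eq_sum, Finset.sum_apply, Finset.sum_apply]
  rfl

/-- the theory of lifted traces -/
def theoryS (hI : S_Inj) (hT : S_TorsF) [Finite (MaximalSpectrum R)] : Theory (La D) 0 where
  U C _ := K0 (MonoidAlgebra R C)
  grp C _ := inferInstance
  map f := K0.map (mapDomainRingHom R f)
  b u := bS hN D u
  b_add _ u v := by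
    funext c M n
    show bb _ (cmp hN D M n _ (u + v)) c = _
    rw [map_add]
    unfold bb
    rw [map_add]
    rfl
  b_map := by
    intro C E _ _ _ _ _ f hf u c
    funext M n
    show bb _ (cmp hN D M n _ (K0.map _ u)) _ = bb _ _ _
    rw [cmp_map]
    exact bb_map f hf _ c
  b_map_not := by
    intro C E _ _ _ _ _ f _ u d hd
    funext M n
    show bb _ (cmp hN D M n _ (K0.map _ u)) _ = 0
    rw [cmp_map]
    exact bb_map_not f _ d hd
  res := by
    classical
    intro C _ _ _ B u
    have : Fintype (C ⧸ B) := Fintype.ofFinite _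
    refine ⟨Fintype.card (C ⧸ B), resK R B u, Fintype.card_pos, fun d => ?_⟩
    funext M n
    show bb _ (cmp hN D M n _ (resK R B u)) _ = _
    rw [cmp_res, bb_resK]
    rfl
  tors := by
    intro C _ _ _ u hu
    refine ⟨1, one_pos, ?_⟩
    rw [one_smul]
    apply hI R C u
    intro M
    apply hT (RF R M) (D M).W (D M).θ (D M).thick C
    intro n v hv h
    have := Fintype.ofFinite C
    have h1 : cmp hN D M n C u = v := lft_unique hN (D M) n hv
    rw [T_eq_sum]
    refine Finset.sum_eq_zero fun c _ => ?_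
    have h2 : bb ((D M).W n) (cmp hN D M n C u) c = 0 := congrFun (congrFun (congrFun hu c) M) n
    rw [h1] at h2
    rw [h2, zero_mul]

end semilocal

end

end Pool.Agent.Y778.SL
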